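import Mathlib
import Pool.Agent.H51.FiveB
import Pool.Agent.H51.FiveT1

set_option autoImplicit false

namespace Pool.Agent.Results.MP_f1c1a6_nt.Lower

open Pool.Agent.H51

theorem result :
    ∀ a : ℤ, ¬ ((5 : ℤ) ∣ a) →
      Real.log (1193 / 1000) ≤ Filter.limsup
        (fun k : ℕ =>
          Real.log ((Set.ncard {n : ℤ |
            (fun m : ℤ => if m % 2 = 0 then m / 2 else (5 * m + 1) / 2)^[k] n = a} : ℕ) : ℝ)
            / (k : ℝ))
        Filter.atTop := by
  intro a ha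
  refine FiveB.limsup_lower a (1193 / 1000) 65536 (by norm_num) (by norm_num) fun k => ?_
  have h1 := FiveB.lower FiveT1.w 1193 FiveT1.w_lt FiveT1.ok k a
  have h2 : 1 ≤ FiveT1.w (FiveB.r a) := by
    have h3 := FiveT1.pos (FiveB.r a) (FiveB.r_lt a)
    have h4 := FiveB.r_lt a
    have h5 := FiveB.r_five a
    simp only [FiveT1.pf, Bool.or_eq_true, Nat.ble_eq, beq_iff_eq] at h3
    omega
  have h6 : 1193 ^ k ≤ 65536 * (1000 ^ k * (FiveB.P k a).ncard) :=
    (Nat.le_mul_of_pos_left _ h2).trans h1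
  have h7 : (1193 : ℝ) ^ k ≤ 65536 * (1000 ^ k * ((FiveB.P k a).ncard : ℝ)) := by exact_mod_cast h6
  rw [div_pow, div_le_iff₀ (by positivity)]
  linarith

end Pool.Agent.Results.MP_f1c1a6_nt.Lower
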