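import Mathlib
import Pool.Agent.H51.FiveB
import Pool.Agent.H51.FiveT2

set_option autoImplicit false

namespace Pool.Agent.Results.MP_f1c1a6_nt.Upper

open Pool.Agent.H51

theorem result :
    ∀ a : ℤ,
      Filter.limsup
        (fun k : ℕ =>
          Real.log ((Set.ncard {n : ℤ |
            (fun m : ℤ => if m % 2 = 0 then m / 2 else (5 * m + 1) / 2)^[k] n = a} : ℕ) : ℝ)
            / (k : ℝ))
        Filter.atTop ≤ Real.log (1215 / 1000) := by
  intro a
  refine FiveB.limsup_upper a (1215 / 1000) 65536 (by norm_num) (by norm_num) fun k => ?_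
  have h1 := FiveB.upper FiveT2.w 1215 (fun m hm => by
    have h3 := FiveT2.pos m hm
    simp only [FiveT2.pf, Bool.or_eq_true, Nat.ble_eq] at h3
    omega) FiveT2.ok k a
  have h6 : 1000 ^ k * (FiveB.P k a).ncard ≤ 65536 * 1215 ^ k :=
    h1.trans (Nat.mul_le_mul_right _ (FiveT2.w_lt _).le)
  have h7 : (1000 : ℝ) ^ k * ((FiveB.P k a).ncard : ℝ) ≤ 65536 * 1215 ^ k := by exact_mod_cast h6
  rw [div_pow, ← mul_div_assoc, le_div_iff₀ (by positivity)]
  linarith

end Pool.Agent.Results.MP_f1c1a6_nt.Upper
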